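import Pool.Agent.Lib_MP_3de5be_neg.Fin
import Pool.Agent.Lib_zau.Zauner

/-!
# Complex equiangular tight frames of type `(s (s + 1), -1, S)`

For every `s ≥ 2` put `K = s (s + 1)`.  There are infinitely many `S` such that the Welch bound is
attained by `c^frame_ℂ(N,d)` and `c^frame_ℂ(N,N-d)` for `N = (S - 1) (S (K - 1) - 1)` and
`K d = S (S (K - 1) - 1)`.
-/

set_option autoImplicit false

namespace Pool.Agent.Results.MP_3de5be_an.NegativeTypes

/-- The coherence `max_{k ≠ l} |⟨g k, g l⟩|` of a finite system of vectors in `ℂ^d`. -/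
noncomputable def coherence {N d : ℕ} (g : Fin N → EuclideanSpace ℂ (Fin d)) : ℝ :=
  ⨆ p : {p : Fin N × Fin N // p.1 ≠ p.2}, ‖inner ℂ (g p.1.1) (g p.1.2)‖

/-- `c^frame_ℂ(N,d)`: the infimum of the coherence over all normalized frames of `N` vectors
in `ℂ^d`. -/
noncomputable def cFrame (N d : ℕ) : ℝ :=
  sInf {m : ℝ | ∃ g : Fin N → EuclideanSpace ℂ (Fin d),
    (∀ k, ‖g k‖ = 1) ∧ Submodule.span ℂ (Set.range g) = ⊤ ∧ coherence g = m}

/-- For every `s ≥ 2` there are infinitely many `t` such that, with `K = s (s + 1)`,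
`S = s + (s - 1) (s + 1) ^ 2 t`, `N = (S - 1) (S (K - 1) - 1)` and `K d = S (S (K - 1) - 1)`, the
Welch bound is attained by `c^frame_ℂ(N,d)` and by `c^frame_ℂ(N,N-d)`. -/
theorem result (s : ℕ) (hs : 2 ≤ s) (B : ℕ) :
    ∃ t S N d : ℕ, B < t ∧ (1 + (s * (s + 1) - 1) * t).Prime ∧
      S = s + (s - 1) * (s + 1) ^ 2 * t ∧
      N = (S - 1) * (S * (s * (s + 1) - 1) - 1) ∧
      s * (s + 1) * d = S * (S * (s * (s + 1) - 1) - 1) ∧ 1 ≤ d ∧ d < N ∧
      cFrame N d = Real.sqrt (((N : ℝ) - d) / (d * ((N : ℝ) - 1))) ∧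
      cFrame N (N - d) =
        Real.sqrt (((N : ℝ) - (N - d : ℕ)) / ((N - d : ℕ) * ((N : ℝ) - 1))) := by
  obtain ⟨n, rfl⟩ : ∃ n, s = n + 1 := ⟨s - 1, by omega⟩
  have hn : 1 ≤ n := by omega
  obtain ⟨q, t, S, N, D, h1, h2, h3, h4, h5, h6, h7, h8, h9, h10⟩ :=
    NegEtf.main (fun d _ hd => Zau.zauner d hd) n hn (1 + (n ^ 2 + 3 * n + 1) * B)
  have e1 : (n + 1) * (n + 1 + 1) - 1 = n ^ 2 + 3 * n + 1 := by
    have : (n + 1) * (n + 1 + 1) = n ^ 2 + 3 * n + 1 + 1 := by ring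
    omega
  have e2 : n + 1 - 1 = n := rfl
  have e3 : n + 1 + 1 = n + 2 := rfl
  have e4 : n * (n + 2) ^ 2 * q = S * (n ^ 2 + 3 * n + 1) - 1 := by
    have : n * (n + 2) ^ 2 * q + 1 = S * (n ^ 2 + 3 * n + 1) := by
      rw [h3, h4]
      ring
    omega
  have e5 : S - 1 = n + n * (n + 2) ^ 2 * t := by omega
  refine ⟨t, S, N, D, ?_, ?_, ?_, ?_, ?_, h7, h8, h9, h10⟩
  · by_contra h
    have h11 : t ≤ B := by omega
    have h12 := Nat.mul_le_mul_left (n ^ 2 + 3 * n + 1) h11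
    omega
  · rw [e1, ← h3]
    exact h1
  · rw [e2, e3]
    exact h4
  · rw [e1, e5, ← e4]
    exact h5
  · rw [e1, ← e4, e3]
    exact h6

end Pool.Agent.Results.MP_3de5be_an.NegativeTypes
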