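import Pool.Agent.Lib_MP_008adc_oct.OFrames
import Pool.Agent.Lib_MP_008adc_oct.OFinal
import Pool.Agent.Lib_MP_008adc_t3.RepB

/-!
# New pairs for which the Welch bound is attained by real frames

Let `tow 0 = 1` and `tow (j + 1) = 2 ^ tow j`. There is a constant `C` such that, for all
`0 < q < tow j`, `t ≥ C ^ j` and `n = 2 ^ t q`, the Welch bound is attained by real frames of `n ^ 2`
vectors in dimension `n (n - 1) / 2` and in dimension `n (n + 1) / 2`. So `t ≥ C ^ (log* q + 1)`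
is enough.
-/

set_option autoImplicit false

namespace Pool.Agent.Results.MP_3de5be_an.RealFramesHadamard

open HadCalc

theorem result : ∃ C : ℕ, 1 ≤ C ∧ ∀ j q t : ℕ, 0 < q → q < tow j → C ^ j ≤ t →
    ∀ n d : ℕ, n = 2 ^ t * q → (d = n * (n - 1) / 2 ∨ d = n * (n + 1) / 2) →
      RealETF.cFrame (n ^ 2) d =
        Real.sqrt ((((n ^ 2 : ℕ) : ℝ) - d) / (d * (((n ^ 2 : ℕ) : ℝ) - 1))) :=
  frames_star_of (hadOrder_star_of (HadNT.repZ_of_repB HadT3.repB))

end Pool.Agent.Results.MP_3de5be_an.RealFramesHadamard
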