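import Pool.Agent.Lib_MP_008adc_oct.OFrames
import Pool.Agent.Lib_MP_008adc_oct.OFinal
import Pool.Agent.Lib_MP_008adc_t3.RepB

/-!
# New pairs for which the Welch bound is attained by real frames, from triple systems

Let `tow 0 = 1` and `tow (j + 1) = 2 ^ tow j`. There is a constant `C` such that, for all
`q < tow j` not divisible by `3`, `t ≥ C ^ j` and `n = 2 ^ t q`, the Welch bound is attained by real
frames of `n (2 n - 1)` vectors in the dimensions `(n - 1) (2 n - 1) / 3` and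
`(2 n + 1) (2 n - 1) / 3`, and of `n (2 n + 1)` vectors in the dimensions `(n + 1) (2 n + 1) / 3`
and `(2 n + 1) (2 n - 1) / 3`. So `t ≥ C ^ (log* q + 1)` is enough.
-/

set_option autoImplicit false

namespace Pool.Agent.Results.MP_3de5be_an.RealFramesTriples

open HadCalc

theorem result : ∃ C : ℕ, 1 ≤ C ∧ ∀ j q t : ℕ, ¬ 3 ∣ q → q < tow j → C ^ j ≤ t →
    ∀ n N d : ℕ, n = 2 ^ t * q →
    ((N = n * (2 * n - 1) ∧
        (3 * d = (n - 1) * (2 * n - 1) ∨ 3 * d = (2 * n + 1) * (2 * n - 1))) ∨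
      (N = n * (2 * n + 1) ∧
        (3 * d = (n + 1) * (2 * n + 1) ∨ 3 * d = (2 * n + 1) * (2 * n - 1)))) →
      RealETF.cFrame N d = Real.sqrt (((N : ℝ) - d) / (d * ((N : ℝ) - 1))) :=
  triples_star_of (hadOrder_star_of (HadNT.repZ_of_repB HadT3.repB))

end Pool.Agent.Results.MP_3de5be_an.RealFramesTriples
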