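import Pool.Agent.Lib_MP_3de5be_sic.Top
import Pool.Agent.Lib_zau.Zauner

/-!
# The top of the range of complex equiangular tight frames

`c^frame_ℂ(N,d)` attains the Welch bound for `N = d ^ 2` and for `N = (N - d) ^ 2`, for every `d`, and
in the range `N > e ^ 2 - e + 1`, `e = d ≥ 2` or `e = N - d ≥ 2`, only then.
-/

set_option autoImplicit false

namespace Pool.Agent.Results.MP_3de5be_an.TopRange

/-- The coherence `max_{k ≠ l} |⟨g k, g l⟩|` of a finite system of vectors in `ℂ^d`. -/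
noncomputable def coherence {N d : ℕ} (g : Fin N → EuclideanSpace ℂ (Fin d)) : ℝ :=
  ⨆ p : {p : Fin N × Fin N // p.1 ≠ p.2}, ‖inner ℂ (g p.1.1) (g p.1.2)‖

/-- `c^frame_ℂ(N,d)`: the infimum of the coherence over all normalized frames of `N` vectors
in `ℂ^d`. -/
noncomputable def cFrame (N d : ℕ) : ℝ :=
  sInf {m : ℝ | ∃ g : Fin N → EuclideanSpace ℂ (Fin d),
    (∀ k, ‖g k‖ = 1) ∧ Submodule.span ℂ (Set.range g) = ⊤ ∧ coherence g = m}

/-- For integers `N ≥ 2`, `1 ≤ d ≤ N` and `e = d` or `e = N - d` with `e ≥ 2` and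
`N > e ^ 2 - e + 1`, the Welch bound is attained by `c^frame_ℂ(N,d)` if and only if `N = e ^ 2`. -/
theorem result (N d e : ℕ) (hN : 2 ≤ N) (hd : 1 ≤ d) (hdN : d ≤ N) (he : e = d ∨ e = N - d)
    (he2 : 2 ≤ e) (htop : e ^ 2 - e + 1 < N) :
    cFrame N d = Real.sqrt (((N : ℝ) - d) / (d * ((N : ℝ) - 1))) ↔ N = e ^ 2 :=
  SicEtf.topRange (fun d _ hd => Zau.zauner d hd) N d hN hd hdN e he he2 htop

end Pool.Agent.Results.MP_3de5be_an.TopRange
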